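import Mathlib

set_option autoImplicit false

open MeasureTheory Cardinal Set
open scoped ENNReal

namespace Pool.Agent.Results.MP_93dabc_an.NoSelector

/-! ### A probability space in which exactly the countable sets are null -/

/-- The countable-cocountable sigma-algebra. -/
@[reducible] def ccSpace (Ω : Type) : MeasurableSpace Ω where
  MeasurableSet' s := s.Countable ∨ sᶜ.Countable
  measurableSet_empty := Or.inl countable_empty
  measurableSet_compl s hs := by
    rcases hs with h | h
    · right; rwa [compl_compl]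
    · left; exact h
  measurableSet_iUnion f hf := by
    by_cases h : ∀ i, (f i).Countable
    · left; exact countable_iUnion h
    · right
      push Not at h
      obtain ⟨i, hi⟩ := h
      have h2 := (hf i).resolve_left hi
      exact h2.mono (compl_subset_compl.mpr (subset_iUnion f i))

open Classical in
/-- The probability measure equal to `0` on countable sets and to `1` on cocountable sets. -/
noncomputable def ccMeasure (Ω : Type) [Uncountable Ω] : @Measure Ω (ccSpace Ω) :=
  @Measure.ofMeasurable Ω (ccSpace Ω) (fun s _ => if s.Countable then 0 else 1)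
    (by simp)
    (by
      intro f hf hd
      by_cases h : ∀ i, (f i).Countable
      · simp [h]
      · push Not at h
        obtain ⟨i, hi⟩ := h
        have hic : (f i)ᶜ.Countable := (hf i).resolve_left hi
        have hU : ¬ (⋃ i, f i).Countable := fun h => hi (h.mono (subset_iUnion f i))
        have hj : ∀ j, j ≠ i → (f j).Countable := by
          intro j hj
          exact hic.mono (Set.disjoint_left.mp (hd hj))
        rw [if_neg hU, tsum_eq_single i]
        · rw [if_neg hi]
        · intro j hji
          rw [if_pos (hj j hji)])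

open Classical in
lemma ccMeasure_apply (Ω : Type) [Uncountable Ω] (s : Set Ω) (hs : s.Countable ∨ sᶜ.Countable) :
    ccMeasure Ω s = if s.Countable then 0 else 1 :=
  @Measure.ofMeasurable_apply Ω (ccSpace Ω) _ _ _ s hs

/-! ### Functionals on `ℓ¹` -/

section
variable {Ω : Type}

lemma summable_coe (x : lp (fun _ : Ω => ℝ) 1) : HasSum (fun s => |x s|) ‖x‖ := by
  have := lp.hasSum_norm (p := 1) (by simp) x
  simpa using this

lemma summable_mul (g : Ω → ℝ) (hg : ∀ s, |g s| ≤ 1) (x : lp (fun _ : Ω => ℝ) 1) :
    Summable (fun s => g s * x s) := by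
  apply Summable.of_norm_bounded (summable_coe x).summable
  intro s
  rw [Real.norm_eq_abs, abs_mul]
  exact mul_le_of_le_one_left (abs_nonneg _) (hg s)

/-- The functional `x ↦ ∑ g s * x s`. -/
noncomputable def pairing (g : Ω → ℝ) (hg : ∀ s, |g s| ≤ 1) : lp (fun _ : Ω => ℝ) 1 →L[ℝ] ℝ :=
  LinearMap.mkContinuous
    { toFun := fun x => ∑' s, g s * x s
      map_add' := by
        intro x y
        rw [← (summable_mul g hg x).tsum_add (summable_mul g hg y)]
        apply tsum_congr
        intro s
        simp only [lp.coeFn_add, Pi.add_apply]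
        ring
      map_smul' := by
        intro c x
        simp only [lp.coeFn_smul, Pi.smul_apply, smul_eq_mul, RingHom.id_apply]
        rw [← tsum_mul_left]
        apply tsum_congr
        intro s
        ring } 1 (by
      intro x
      simp only [LinearMap.coe_mk, AddHom.coe_mk, one_mul]
      rw [← (summable_coe x).tsum_eq]
      apply tsum_of_norm_bounded (summable_coe x).summable.hasSum
      intro s
      rw [Real.norm_eq_abs, abs_mul]
      exact mul_le_of_le_one_left (abs_nonneg _) (hg s))

lemma pairing_apply (g : Ω → ℝ) (hg : ∀ s, |g s| ≤ 1) (x : lp (fun _ : Ω => ℝ) 1) :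
    pairing g hg x = ∑' s, g s * x s := rfl

/-- the sum functional -/
noncomputable def total : lp (fun _ : Ω => ℝ) 1 →L[ℝ] ℝ := pairing (fun _ => 1) (by simp)

lemma total_apply (x : lp (fun _ : Ω => ℝ) 1) : total x = ∑' s, x s := by
  simp [total, pairing_apply]

open Classical in
/-- the functional `x ↦ ∑_{s ∈ A} x s` -/
noncomputable def part (A : Set Ω) : lp (fun _ : Ω => ℝ) 1 →L[ℝ] ℝ :=
  pairing (fun s => if s ∈ A then 1 else 0) (by intro s; split_ifs <;> simp)

lemma part_eq_total (A : Set Ω) (x : lp (fun _ : Ω => ℝ) 1) (h : ∀ s, x s ≠ 0 → s ∈ A) :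
    part A x = total x := by
  classical
  rw [total_apply, part, pairing_apply]
  apply tsum_congr
  intro s
  by_cases hs : x s = 0
  · rw [hs]; simp
  · rw [if_pos (h s hs), one_mul]

lemma part_eq_zero (A : Set Ω) (x : lp (fun _ : Ω => ℝ) 1) (h : ∀ s, x s ≠ 0 → s ∉ A) :
    part A x = 0 := by
  classical
  rw [part, pairing_apply]
  rw [show (fun s => (if s ∈ A then (1 : ℝ) else 0) * x s) = fun _ => 0 from ?_]
  · simp
  · funext s
    by_cases hs : x s = 0
    · rw [hs]; simp
    · rw [if_neg (h s hs), zero_mul]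

lemma countable_support (x : lp (fun _ : Ω => ℝ) 1) : {s | x s ≠ 0}.Countable := by
  have := (summable_coe x).summable.countable_support
  simpa [Function.support] using this

/-- The value `F t`: all nonnegative elements of total mass one supported in `[t, ∞)`. -/
def val [LinearOrder Ω] (t : Ω) : Set (lp (fun _ : Ω => ℝ) 1) :=
  {x | (∀ s, 0 ≤ x s) ∧ (∀ s, s < t → x s = 0) ∧ total x = 1}

open Classical in
lemma single_mem [LinearOrder Ω] (t s : Ω) (h : t ≤ s) :
    (lp.single 1 s (1 : ℝ) : lp (fun _ : Ω => ℝ) 1) ∈ val t := by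
  refine ⟨?_, ?_, ?_⟩
  · intro r
    by_cases hr : r = s
    · subst hr; rw [lp.single_apply_self]; norm_num
    · rw [lp.single_apply_ne _ _ _ hr]
  · intro r hr
    rw [lp.single_apply_ne _ _ _ (ne_of_lt (lt_of_lt_of_le hr h))]
  · rw [total_apply, tsum_eq_single s]
    · rw [lp.single_apply_self]
    · intro r hr
      rw [lp.single_apply_ne _ _ _ hr]

lemma val_convex [LinearOrder Ω] (t : Ω) : Convex ℝ (val t) := by
  intro x hx y hy a b ha hb hab
  refine ⟨?_, ?_, ?_⟩
  · intro s
    have h1 := hx.1 s
    have h2 := hy.1 s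
    simp only [lp.coeFn_add, Pi.add_apply, lp.coeFn_smul, Pi.smul_apply, smul_eq_mul]
    positivity
  · intro s hs
    have h1 := hx.2.1 s hs
    have h2 := hy.2.1 s hs
    simp only [lp.coeFn_add, Pi.add_apply, lp.coeFn_smul, Pi.smul_apply, smul_eq_mul, h1, h2]
    ring
  · rw [map_add, map_smul, map_smul, hx.2.2, hy.2.2]
    simpa using hab

lemma continuous_coord (s : Ω) : Continuous (fun x : lp (fun _ : Ω => ℝ) 1 => x s) := by
  classical
  have h : (fun x : lp (fun _ : Ω => ℝ) 1 => x s) = fun x => part {s} x := by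
    funext x
    rw [part, pairing_apply, tsum_eq_single s]
    · simp
    · intro r hr
      simp [hr]
  rw [h]
  exact (part {s}).continuous

lemma val_closed [LinearOrder Ω] (t : Ω) : IsClosed (val t) := by
  have h : val t = (⋂ s : Ω, {x | 0 ≤ x s}) ∩ ((⋂ s : Ω, ⋂ _ : s < t, {x | x s = 0}) ∩
      {x | total x = 1}) := by
    ext x
    simp [val]
  rw [h]
  refine IsClosed.inter (isClosed_iInter fun s => ?_) (IsClosed.inter
    (isClosed_iInter fun s => isClosed_iInter fun _ => ?_) ?_)
  · exact isClosed_le continuous_const (continuous_coord s)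
  · exact isClosed_eq (continuous_coord s) continuous_const
  · exact isClosed_eq total.continuous continuous_const

lemma val_norm [LinearOrder Ω] (t : Ω) (x : lp (fun _ : Ω => ℝ) 1) (hx : x ∈ val t) : ‖x‖ = 1 := by
  rw [← hx.2.2, total_apply, ← (summable_coe x).tsum_eq]
  apply tsum_congr
  intro s
  exact abs_of_nonneg (hx.1 s)

open Classical in
lemma le_of_val [LinearOrder Ω] (t : Ω) (φ : lp (fun _ : Ω => ℝ) 1 →L[ℝ] ℝ) (a : ℝ)
    (h : ∀ s, t ≤ s → φ (lp.single 1 s (1 : ℝ)) ≤ a) (x : lp (fun _ : Ω => ℝ) 1)
    (hx : x ∈ val t) : φ x ≤ a := by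
  have h1 : HasSum (fun s => (lp.single 1 s (x s) : lp (fun _ : Ω => ℝ) 1)) x :=
    lp.hasSum_single (by simp) x
  have h2 := φ.hasSum h1
  have h3 : HasSum (fun s => x s * a) (1 * a) := by
    apply HasSum.mul_right
    rw [← hx.2.2, total_apply]
    have := (summable_mul (fun _ => (1 : ℝ)) (by simp) x).hasSum
    simpa using this
  rw [one_mul] at h3
  refine hasSum_le ?_ h2 h3
  intro s
  have e : (lp.single 1 s (x s) : lp (fun _ : Ω => ℝ) 1) = x s • lp.single 1 s (1 : ℝ) := by
    rw [← lp.single_smul]
    simp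
  rw [e, map_smul, smul_eq_mul]
  by_cases hs : s < t
  · rw [hx.2.1 s hs, zero_mul, zero_mul]
  · exact mul_le_mul_of_nonneg_left (h s (not_lt.mp hs)) (hx.1 s)

end

/-! ### The index set `ω₁` -/

/-- A well-ordered type in which all initial segments are countable but which is uncountable. -/
abbrev W : Type := (aleph 1).ord.ToType

instance : Uncountable W := by
  rw [← Cardinal.aleph0_lt_mk_iff, mk_ord_toType]
  exact aleph0_lt_aleph_one

lemma countable_Iio (t : W) : (Iio t).Countable := by
  have h : #(Iio t) < aleph 1 := by simpa using Cardinal.mk_Iio_lt t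
  rw [← Set.countable_coe_iff, ← Cardinal.mk_le_aleph0_iff]
  exact Order.lt_succ_iff.mp (lt_of_lt_of_eq h succ_aleph0.symm)

lemma exists_gt (S : Set W) (hS : S.Countable) : ∃ t : W, ∀ s ∈ S, s < t := by
  have h1 : (⋃ s ∈ S, Iic s).Countable := by
    apply hS.biUnion
    intro s _
    rw [← Iio_union_right]
    exact (countable_Iio s).union (countable_singleton s)
  have h2 : (⋃ s ∈ S, Iic s) ≠ Set.univ := by
    intro h
    rw [h] at h1
    exact not_countable_univ h1
  obtain ⟨t, ht⟩ := (Set.ne_univ_iff_exists_notMem _).mp h2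
  refine ⟨t, fun s hs => ?_⟩
  by_contra hst
  exact ht (mem_biUnion hs (not_lt.mp hst))

/-- An uncountable set on which the supports of the values of a selector are disjoint. -/
lemma exists_disjoint (f : W → lp (fun _ : W => ℝ) 1) (hf : ∀ t, f t ∈ val t) :
    ∃ T : Set W, ¬ T.Countable ∧
      ∀ t ∈ T, ∀ t' ∈ T, t ≠ t' → ∀ s, f t s ≠ 0 → f t' s = 0 := by
  obtain ⟨T, hT⟩ := zorn_subset
    {T : Set W | ∀ t ∈ T, ∀ t' ∈ T, t ≠ t' → ∀ s, f t s ≠ 0 → f t' s = 0} (by
      intro c hc hchain
      refine ⟨⋃₀ c, ?_, fun s hs => subset_sUnion_of_mem hs⟩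
      rintro t ⟨A, hA, htA⟩ t' ⟨B, hB, htB⟩ hne
      rcases hchain.total hA hB with h | h
      · exact hc hB t (h htA) t' htB hne
      · exact hc hA t htA t' (h htB) hne)
  refine ⟨T, ?_, hT.prop⟩
  intro hcount
  have hU : (⋃ t ∈ T, {s | f t s ≠ 0}).Countable := hcount.biUnion fun t _ => countable_support _
  obtain ⟨u, hu⟩ := exists_gt _ hU
  have hex : ∃ s, f u s ≠ 0 := by
    by_contra h
    push Not at h
    have h1 := (hf u).2.2
    rw [total_apply] at h1
    simp [h] at h1
  obtain ⟨s, hs⟩ := hex
  have hus : u ≤ s := by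
    by_contra h
    exact hs ((hf u).2.1 s (not_le.mp h))
  have huT : u ∉ T := by
    intro huT
    exact absurd (hu s (mem_biUnion huT hs)) (not_lt.mpr hus)
  have hins : insert u T ∈ {T : Set W | ∀ t ∈ T, ∀ t' ∈ T, t ≠ t' → ∀ s, f t s ≠ 0 → f t' s = 0} := by
    intro t ht t' ht' hne r hr
    rcases mem_insert_iff.mp ht with rfl | ht
    · rcases mem_insert_iff.mp ht' with rfl | ht'
      · exact absurd rfl hne
      · by_contra hr'
        have h1 : r < t := hu r (mem_biUnion ht' hr')
        exact hr ((hf t).2.1 r h1)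
    · rcases mem_insert_iff.mp ht' with h' | ht'
      · rw [h']
        exact (hf u).2.1 r (hu r (mem_biUnion ht hr))
      · exact hT.prop t ht t' ht' hne r hr
  have := hT.le_of_ge hins (subset_insert u T)
  exact huT (this (mem_insert u T))

/-- An uncountable set splits into two uncountable pieces. -/
lemma exists_split (T : Set W) (hT : ¬ T.Countable) :
    ∃ A B : Set W, A ⊆ T ∧ B ⊆ T ∧ Disjoint A B ∧ ¬ A.Countable ∧ ¬ B.Countable := by
  have hinf : ℵ₀ ≤ #T := by
    by_contra h
    exact hT (Set.countable_coe_iff.mp (Cardinal.mk_le_aleph0_iff.mp (not_le.mp h).le))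
  have heq : #(T ⊕ T) = #T := by
    rw [Cardinal.mk_sum, Cardinal.lift_id, Cardinal.add_eq_self hinf]
  obtain ⟨e⟩ := Cardinal.eq.mp heq
  refine ⟨range fun x : T => (e (Sum.inl x) : W), range fun x : T => (e (Sum.inr x) : W),
    ?_, ?_, ?_, ?_, ?_⟩
  · rintro _ ⟨x, rfl⟩; exact (e _).2
  · rintro _ ⟨x, rfl⟩; exact (e _).2
  · rw [Set.disjoint_left]
    rintro _ ⟨x, rfl⟩ ⟨y, hy⟩
    have := e.injective (Subtype.ext hy)
    exact Sum.inr_ne_inl this
  · intro h
    apply hT
    rw [← Set.countable_coe_iff]
    have hinj : Function.Injective (fun x : T => (e (Sum.inl x) : W)) := by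
      intro x y hxy
      exact Sum.inl_injective (e.injective (Subtype.ext hxy))
    have := h.to_subtype
    exact ((Equiv.ofInjective _ hinj).injective).countable
  · intro h
    apply hT
    rw [← Set.countable_coe_iff]
    have hinj : Function.Injective (fun x : T => (e (Sum.inr x) : W)) := by
      intro x y hxy
      exact Sum.inr_injective (e.injective (Subtype.ext hxy))
    have := h.to_subtype
    exact ((Equiv.ofInjective _ hinj).injective).countable

/-- Negative answer to Q1: a complete probability space, a Banach space and a scalarly measurable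
multi-function with non-empty closed convex (and even bounded) values, no selector of which is
scalarly measurable. -/
theorem result :
    ∃ (Ω : Type) (_ : MeasurableSpace Ω) (μ : Measure Ω),
      IsProbabilityMeasure μ ∧ μ.IsComplete ∧
      ∃ (X : Type) (_ : NormedAddCommGroup X) (_ : NormedSpace ℝ X) (_ : CompleteSpace X)
        (F : Ω → Set X),
        (∀ t, (F t).Nonempty ∧ Convex ℝ (F t) ∧ IsClosed (F t)) ∧
        (∀ t, ∀ x ∈ F t, ‖x‖ = 1) ∧
        (∀ (φ : X →L[ℝ] ℝ) (a : ℝ), φ ≠ 0 →
          MeasurableSet {t | (F t ∩ {x | a < φ x}).Nonempty}) ∧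
        ∀ f : Ω → X, (∀ t, f t ∈ F t) →
          ¬ ∀ φ : X →L[ℝ] ℝ, Measurable fun t => φ (f t) := by
  classical
  refine ⟨W, ccSpace W, ccMeasure W, ?_, ?_, lp (fun _ : W => ℝ) 1, inferInstance, inferInstance,
    inferInstance, fun t => val t, ?_, ?_, ?_, ?_⟩
  · refine @IsProbabilityMeasure.mk W (ccSpace W) _ ?_
    rw [ccMeasure_apply W Set.univ (Or.inr (by simp))]
    rw [if_neg]
    exact not_countable_univ
  · refine @Measure.IsComplete.mk W (ccSpace W) _ ?_
    intro s hs
    obtain ⟨t, hst, ht, ht0⟩ := @exists_measurable_superset_of_null W (ccSpace W) _ s hs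
    have ht' : t.Countable ∨ tᶜ.Countable := ht
    rw [ccMeasure_apply W t ht'] at ht0
    have htc : t.Countable := by
      by_contra h
      rw [if_neg h] at ht0
      exact one_ne_zero ht0
    exact Or.inl (htc.mono hst)
  · intro t
    exact ⟨⟨_, single_mem t t le_rfl⟩, val_convex t, val_closed t⟩
  · exact fun t x hx => val_norm t x hx
  · intro φ a _
    by_cases h : ∃ t : W, ∀ s, t ≤ s → φ (lp.single 1 s (1 : ℝ)) ≤ a
    · obtain ⟨t, ht⟩ := h
      refine Or.inl ((countable_Iio t).mono ?_)
      rintro u ⟨x, hx, hxa⟩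
      by_contra hu
      have := le_of_val u φ a (fun s hs => ht s ((not_lt.mp hu).trans hs)) x hx
      exact absurd hxa (not_lt.mpr this)
    · push Not at h
      refine Or.inr ?_
      convert Set.countable_empty
      rw [Set.compl_empty_iff, Set.eq_univ_iff_forall]
      intro t
      obtain ⟨s, hts, hs⟩ := h t
      exact ⟨_, single_mem t s hts, hs⟩
  · intro f hf hmeas
    obtain ⟨T, hT, hdisj⟩ := exists_disjoint f hf
    obtain ⟨A, B, hA, hB, hAB, hAc, hBc⟩ := exists_split T hT
    let S : Set W := ⋃ t ∈ A, {s | f t s ≠ 0}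
    have hm := @hmeas (part S) {1} (measurableSet_singleton 1)
    have h1 : ∀ t ∈ A, part S (f t) = 1 := by
      intro t ht
      rw [part_eq_total, (hf t).2.2]
      intro s hs
      exact mem_biUnion ht hs
    have h0 : ∀ t ∈ B, part S (f t) = 0 := by
      intro t ht
      apply part_eq_zero
      intro s hs hsS
      obtain ⟨u, hu, hus⟩ := mem_iUnion₂.mp hsS
      have hne : u ≠ t := by
        rintro rfl
        exact Set.disjoint_left.mp hAB hu ht
      exact hs (hdisj u (hA hu) t (hB ht) hne s hus)
    rcases hm with hm | hm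
    · exact hAc (hm.mono fun t ht => h1 t ht)
    · refine hBc (hm.mono fun t ht => ?_)
      intro h
      have h' : part S (f t) = 1 := h
      rw [h0 t ht] at h'
      exact zero_ne_one h'

end Pool.Agent.Results.MP_93dabc_an.NoSelector
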